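import Pool.Agent.FUR.Stmts

/-!
Squad FUR, row HVY.
-/

set_option autoImplicit false

namespace Pool.Agent.FUR.H92

open Pool.Agent.FUR

theorem hvy (hR : RSMStmt) : HVYStmt := by
  intro N q f v
  rw [hR N (q + 1) f v, hR N q f v]
  unfold Mq
  rw [← mul_add, ← Finset.sum_add_distrib]
  apply Nat.mul_le_mul_left
  apply Finset.sum_le_sum
  intro x _
  have h1 : (Sn f x).card ≤ ((Sn f x).erase v).card + 1 := by
    have := Finset.pred_card_le_card_erase (s := Sn f x) (a := v)
    omega
  calc ((Sn f x).card).choose (q + 1) ≤ (((Sn f x).erase v).card + 1).choose (q + 1) :=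
        Nat.choose_le_choose _ h1
    _ = (((Sn f x).erase v).card).choose q + (((Sn f x).erase v).card).choose (q + 1) :=
        Nat.choose_succ_succ _ _
    _ = _ := add_comm _ _

end Pool.Agent.FUR.H92
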