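import Pool.Agent.FUR.Stmts

/-!
Squad FUR, row NUM: the parameters.
-/

set_option autoImplicit false

namespace Pool.Agent.FUR.H92

open Pool.Agent.FUR

/-- the binomial coefficient is large -/
theorem choose_ge (n q : ℕ) (h : 2 * q ≤ n) :
    (n : ℝ) ^ q ≤ (2 ^ q * (q.factorial : ℝ)) * (n.choose q : ℝ) := by
  have h1 := Nat.pow_le_choose (α := ℝ) q n
  have h2 : (0 : ℝ) < (q.factorial : ℝ) := by exact_mod_cast q.factorial_pos
  rw [div_le_iff₀ h2] at h1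
  have h3 : (n : ℝ) ≤ 2 * ((n + 1 - q : ℕ) : ℝ) := by
    have : n ≤ 2 * (n + 1 - q) := by omega
    exact_mod_cast this
  calc (n : ℝ) ^ q ≤ (2 * ((n + 1 - q : ℕ) : ℝ)) ^ q :=
        pow_le_pow_left₀ (Nat.cast_nonneg _) h3 q
    _ = 2 ^ q * (((n + 1 - q : ℕ) : ℝ) ^ q) := mul_pow _ _ _
    _ ≤ 2 ^ q * ((n.choose q : ℝ) * (q.factorial : ℝ)) :=
        mul_le_mul_of_nonneg_left (by exact_mod_cast h1) (by positivity)
    _ = _ := by ring

theorem num : NUMStmt := by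
  intro ε he he1 c
  obtain ⟨q, hq⟩ : ∃ q : ℕ, 3 * ((c : ℝ) + 1) / ε + 1 ≤ q := exists_nat_ge _
  have hq0 : (1 : ℝ) ≤ q := by
    have : 0 ≤ 3 * ((c : ℝ) + 1) / ε := by positivity
    linarith
  have hq1 : 1 ≤ q := by exact_mod_cast hq0
  have hqe : (c : ℝ) + 1 ≤ ε / 3 * q := by
    have h1 : 3 * ((c : ℝ) + 1) / ε ≤ q := by linarith
    rw [div_le_iff₀ he] at h1
    linarith
  refine ⟨q, 3 * ((q - 1) * 4 ^ (q - 1)) + q + 1, hq1, by omega, by omega, ?_⟩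
  set k := 3 * ((q - 1) * 4 ^ (q - 1)) + q + 1 with hk
  intro C hC
  set A : ℝ := 2 ^ k * (k.choose q : ℝ) * 3 * C * 34 ^ (q - 1) * (2 ^ q * (q.factorial : ℝ)) with hA
  obtain ⟨N1, hN1⟩ : ∃ N1 : ℕ, A + 1 ≤ N1 := exists_nat_ge _
  refine ⟨N1 + k + 2 * q + 1, fun n hn => ⟨by omega, ?_⟩⟩
  intro s M hs hM
  have hn1 : 1 ≤ n := by omega
  have hn1' : (1 : ℝ) ≤ n := by exact_mod_cast hn1
  have hx1 : (1 : ℝ) ≤ 34 * n := by linarith
  have hx0 : (0 : ℝ) < 34 * n := by linarith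
  set x : ℝ := 34 * n with hx
  have hs23 : (s : ℝ) ^ ((2 : ℝ) / 3) ≤ x ^ (1 - 2 * ε / 3) := by
    have h1 := Real.rpow_le_rpow (Nat.cast_nonneg s) hs (show (0 : ℝ) ≤ 2 / 3 by norm_num)
    rw [← Real.rpow_mul hx0.le] at h1
    have h2 : ((3 : ℝ) / 2 - ε) * (2 / 3) = 1 - 2 * ε / 3 := by ring
    rwa [h2] at h1
  have hne : (n : ℝ) ^ (ε / 3) ≤ x ^ (ε / 3) :=
    Real.rpow_le_rpow (by linarith) (by rw [hx]; linarith) (by positivity)
  have hprod : (n : ℝ) ^ (ε / 3) * (s : ℝ) ^ ((2 : ℝ) / 3) ≤ x ^ (1 - ε / 3) := by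
    have h1 := mul_le_mul hne hs23 (by positivity) (by positivity)
    rw [← Real.rpow_add hx0] at h1
    have h2 : ε / 3 + (1 - 2 * ε / 3) = 1 - ε / 3 := by ring
    rwa [h2] at h1
  have hpow : ((n : ℝ) ^ (ε / 3) * (s : ℝ) ^ ((2 : ℝ) / 3)) ^ q ≤ x ^ ((1 - ε / 3) * q) := by
    have h1 := pow_le_pow_left₀ (by positivity) hprod q
    rwa [← Real.rpow_natCast (x ^ (1 - ε / 3)), ← Real.rpow_mul hx0.le] at h1
  have hMp : (M : ℝ) * ((n : ℝ) ^ (ε / 3) * (s : ℝ) ^ ((2 : ℝ) / 3)) ^ q ≤ x ^ (q - 1) := by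
    have h1 := mul_le_mul hM hpow (by positivity) (by positivity)
    rw [← Real.rpow_natCast x c, ← Real.rpow_add hx0] at h1
    refine h1.trans ?_
    rw [← Real.rpow_natCast x (q - 1)]
    apply Real.rpow_le_rpow_of_exponent_le hx1
    rw [Nat.cast_sub hq1]
    push_cast
    nlinarith
  have hxq : x ^ (q - 1) = 34 ^ (q - 1) * (n : ℝ) ^ (q - 1) := mul_pow _ _ _
  have hAn : A < n := by
    have : N1 ≤ n := by omega
    have : (N1 : ℝ) ≤ n := by exact_mod_cast this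
    linarith
  have hchoose := choose_ge n q (by omega)
  have hF : (0 : ℝ) < 2 ^ q * (q.factorial : ℝ) := by
    have : (0 : ℝ) < (q.factorial : ℝ) := by exact_mod_cast q.factorial_pos
    positivity
  have h5 : 2 ^ k * (k.choose q : ℝ) * ((3 * M) * (2 ^ n * C * ((n : ℝ) ^ (ε / 3) *
        (s : ℝ) ^ ((2 : ℝ) / 3)) ^ q)) ≤
      2 ^ n * (2 ^ k * (k.choose q : ℝ) * 3 * C * 34 ^ (q - 1) * (n : ℝ) ^ (q - 1)) := by
    have h6 : 2 ^ k * (k.choose q : ℝ) * ((3 * M) * (2 ^ n * C * ((n : ℝ) ^ (ε / 3) *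
        (s : ℝ) ^ ((2 : ℝ) / 3)) ^ q)) = (2 ^ n * (2 ^ k * (k.choose q : ℝ) * 3 * C)) *
        ((M : ℝ) * ((n : ℝ) ^ (ε / 3) * (s : ℝ) ^ ((2 : ℝ) / 3)) ^ q) := by ring
    rw [h6]
    refine (mul_le_mul_of_nonneg_left hMp (by positivity)).trans ?_
    rw [hxq]
    apply le_of_eq
    ring
  refine lt_of_le_of_lt h5 ?_
  apply mul_lt_mul_of_pos_left _ (by positivity)
  have h7 : 2 ^ k * (k.choose q : ℝ) * 3 * C * 34 ^ (q - 1) * (n : ℝ) ^ (q - 1) *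
      (2 ^ q * (q.factorial : ℝ)) < (n.choose q : ℝ) * (2 ^ q * (q.factorial : ℝ)) := by
    calc 2 ^ k * (k.choose q : ℝ) * 3 * C * 34 ^ (q - 1) * (n : ℝ) ^ (q - 1) *
          (2 ^ q * (q.factorial : ℝ)) = A * (n : ℝ) ^ (q - 1) := by rw [hA]; ring
      _ < n * (n : ℝ) ^ (q - 1) := mul_lt_mul_of_pos_right hAn (by positivity)
      _ = (n : ℝ) ^ q := by
        rw [← pow_succ']
        congr 1
        omega
      _ ≤ _ := by linarith
  exact lt_of_mul_lt_mul_right h7 hF.le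

end Pool.Agent.FUR.H92
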